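import Pool.Agent.K4W.StmtsV

/-! Row GEO of the squad K4W: a Gaussian sum with a linear phase. -/

set_option autoImplicit false

namespace Pool.Agent.K4W.H68

open Pool.Agent.K4W
open Pool.Agent.Helper69_Weyl

theorem tv_b1 (w : ℤ → ℝ) (m : ℤ) (hw0 : ∀ s, 0 ≤ w s) (hw1 : ∀ s, w s ≤ 1)
    (hdec : ∀ s, m + 2 ≤ s → w s ≤ w (s - 1)) (n : ℕ) :
    ∑ i ∈ Finset.range n, |w ((i : ℤ) + (m + 1)) - w ((i : ℤ) + (m + 1) - 1)| ≤ 2 := by
  have key : ∀ n : ℕ, ∑ i ∈ Finset.range (n + 1),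
      |w ((i : ℤ) + (m + 1)) - w ((i : ℤ) + (m + 1) - 1)| ≤ 2 - w ((n : ℤ) + (m + 1)) := by
    intro n
    induction n with
    | zero =>
      rw [Finset.sum_range_one]
      have e1 : ((0 : ℕ) : ℤ) + (m + 1) - 1 = m := by push_cast; ring
      have e2 : ((0 : ℕ) : ℤ) + (m + 1) = m + 1 := by push_cast; ring
      rw [e1, e2]
      have h1 := hw0 (m + 1)
      have h2 := hw1 (m + 1)
      have h3 := hw0 m
      have h4 := hw1 m
      rcases abs_cases (w (m + 1) - w m) with ⟨h, _⟩ | ⟨h, _⟩ <;> rw [h] <;> linarith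
    | succ n ih =>
      rw [Finset.sum_range_succ]
      have e1 : ((n + 1 : ℕ) : ℤ) + (m + 1) - 1 = (n : ℤ) + (m + 1) := by push_cast; ring
      have h1 := hdec (((n + 1 : ℕ) : ℤ) + (m + 1)) (by push_cast; omega)
      rw [e1] at h1 ⊢
      rw [abs_of_nonpos (by linarith)]
      linarith
  cases n with
  | zero => simp
  | succ n => exact (key n).trans (by linarith [hw0 ((n : ℤ) + (m + 1))])

theorem tv_b2 (w : ℤ → ℝ) (m : ℤ) (hw0 : ∀ s, 0 ≤ w s) (hw1 : ∀ s, w s ≤ 1)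
    (hinc : ∀ s, s ≤ m → w (s - 1) ≤ w s) (n : ℕ) :
    ∑ i ∈ Finset.range n, |w (-((i : ℤ) + 1) + (m + 1)) - w (-((i : ℤ) + 1) + (m + 1) - 1)| ≤ 1 := by
  have key : ∀ n : ℕ, ∑ i ∈ Finset.range n,
      |w (-((i : ℤ) + 1) + (m + 1)) - w (-((i : ℤ) + 1) + (m + 1) - 1)| =
        w m - w (m - (n : ℤ)) := by
    intro n
    induction n with
    | zero => simp
    | succ n ih =>
      rw [Finset.sum_range_succ, ih]
      have e1 : -((n : ℤ) + 1) + (m + 1) = m - (n : ℤ) := by ring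
      have e2 : m - ((n + 1 : ℕ) : ℤ) = m - (n : ℤ) - 1 := by push_cast; ring
      have h1 := hinc (m - (n : ℤ)) (by omega)
      rw [e1, e2, abs_of_nonneg (by linarith)]
      ring
  rw [key n]
  linarith [hw1 m, hw0 (m - (n : ℤ))]
theorem sum_shift (f : ℤ → ℝ) (d : ℤ) (hf : Summable f) : Summable (fun s : ℤ => f (s + d)) :=
  (Equiv.addRight d).summable_iff.mpr hf

theorem tsum_shift (f : ℤ → ℝ) (d : ℤ) : ∑' s : ℤ, f (s + d) = ∑' s : ℤ, f s :=
  (Equiv.addRight d).tsum_eq f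

theorem tsum_split (f : ℤ → ℝ) (d : ℤ) (hf : Summable f) (b1 b2 : ℝ)
    (h0 : ∀ s, 0 ≤ f s)
    (h1 : ∀ n : ℕ, ∑ i ∈ Finset.range n, f ((i : ℤ) + d) ≤ b1)
    (h2 : ∀ n : ℕ, ∑ i ∈ Finset.range n, f (-((i : ℤ) + 1) + d) ≤ b2) :
    ∑' s : ℤ, f s ≤ b1 + b2 := by
  rw [← tsum_shift f d]
  have hS := sum_shift f d hf
  have hn1 : Summable (fun n : ℕ => f ((n : ℤ) + d)) :=
    hS.comp_injective (i := fun n : ℕ => (n : ℤ)) Nat.cast_injective
  have hn2 : Summable (fun n : ℕ => f (-((n : ℤ) + 1) + d)) :=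
    hS.comp_injective (i := fun n : ℕ => -((n : ℤ) + 1)) (fun a b h => by
      have h' : -((a : ℤ) + 1) = -((b : ℤ) + 1) := h
      omega)
  rw [tsum_of_nat_of_neg_add_one (f := fun s : ℤ => f (s + d)) hn1 hn2]
  exact add_le_add (Real.tsum_le_of_sum_range_le (fun n => h0 _) h1)
    (Real.tsum_le_of_sum_range_le (fun n => h0 _) h2)
/-- total variation of a unimodal sequence with values in `[0, 1]` -/
theorem tv_le (w : ℤ → ℝ) (m : ℤ) (hw0 : ∀ s, 0 ≤ w s) (hw1 : ∀ s, w s ≤ 1) (hs : Summable w)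
    (hinc : ∀ s, s ≤ m → w (s - 1) ≤ w s) (hdec : ∀ s, m + 2 ≤ s → w s ≤ w (s - 1)) :
    Summable (fun s : ℤ => |w s - w (s - 1)|) ∧ ∑' s : ℤ, |w s - w (s - 1)| ≤ 3 := by
  have hs1 : Summable (fun s : ℤ => w (s - 1)) := by
    have h := sum_shift w (-1) hs
    simpa only [← sub_eq_add_neg] using h
  have hsum : Summable (fun s : ℤ => |w s - w (s - 1)|) := (hs.sub hs1).abs
  refine ⟨hsum, ?_⟩
  have h := tsum_split (fun s : ℤ => |w s - w (s - 1)|) (m + 1) hsum 2 1 (fun s => abs_nonneg _)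
    (tv_b1 w m hw0 hw1 hdec) (tv_b2 w m hw0 hw1 hinc)
  linarith

theorem norm_one_sub_ee (θ : ℝ) : 4 * |θ - round θ| ≤ ‖(1 : ℂ) - ee θ‖ := by
  have h1 : ee θ = ee (θ - round θ) := by
    have h2 : θ = (θ - round θ) + ((round θ : ℤ) : ℝ) := by ring
    conv_lhs => rw [h2]
    rw [ee_add, ee_int, mul_one]
  have hle : |θ - round θ| ≤ 1 / 2 := abs_sub_round θ
  rw [h1]
  set x : ℝ := θ - round θ with hx
  have h3 := norm_ee_neg_sub_one |x| (abs_nonneg x) (by linarith)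
  have h4 : min |x| (1 - |x|) = |x| := min_eq_left (by linarith)
  rw [h4] at h3
  refine h3.trans_eq ?_
  rcases le_total 0 x with h | h
  · rw [abs_of_nonneg h, ← conj_ee]
    rw [show (1 : ℂ) - ee x = (starRingEnd ℂ) (1 - (starRingEnd ℂ) (ee x)) by simp]
    rw [RCLike.norm_conj, norm_sub_rev]
  · rw [abs_of_nonpos h, neg_neg, norm_sub_rev]

theorem geo (hgsu : GsuStmt) : GeoStmt := by
  intro N κ c θ hN hκ
  obtain ⟨hs, h8⟩ := hgsu N κ c hN hκ
  set w : ℤ → ℝ := fun s => Real.exp (-(κ * ((s : ℝ) + c) ^ 2 / (N : ℝ) ^ 2)) with hw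
  have hN0 : (0 : ℝ) < N := by exact_mod_cast hN
  have hw0 : ∀ s, 0 ≤ w s := fun s => (Real.exp_pos _).le
  have hw1 : ∀ s, w s ≤ 1 := by
    intro s
    rw [hw]
    refine Real.exp_le_one_iff.2 ?_
    have : 0 ≤ κ * ((s : ℝ) + c) ^ 2 / (N : ℝ) ^ 2 := by positivity
    linarith
  have hmono : ∀ s t : ℤ, ((t : ℝ) + c) ^ 2 ≤ ((s : ℝ) + c) ^ 2 → w s ≤ w t := by
    intro s t h
    rw [hw]
    refine Real.exp_le_exp.2 (neg_le_neg ?_)
    refine div_le_div_of_nonneg_right ?_ (by positivity)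
    exact mul_le_mul_of_nonneg_left h (by linarith)
  set g : ℤ → ℂ := fun s => ((w s : ℝ) : ℂ) * ee (θ * (s : ℝ)) with hg
  have hgn : ∀ s, ‖g s‖ = w s := by
    intro s
    rw [hg]
    show ‖((w s : ℝ) : ℂ) * ee (θ * (s : ℝ))‖ = w s
    rw [norm_mul, norm_ee, mul_one, Complex.norm_real, Real.norm_eq_abs, abs_of_nonneg (hw0 s)]
  have hgs : Summable g := by
    refine Summable.of_norm ?_
    simp only [hgn]
    exact hs
  have htriv : ‖∑' s, g s‖ ≤ 8 * (N : ℝ) := by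
    refine (norm_tsum_le_tsum_norm ?_).trans ?_
    · simp only [hgn]
      exact hs
    · simp only [hgn]
      exact h8
  -- the shifted sum
  have hshift : ee θ * ∑' s, g s = ∑' s : ℤ, ((w (s - 1) : ℝ) : ℂ) * ee (θ * (s : ℝ)) := by
    rw [← tsum_mul_left, ← (Equiv.subRight (1 : ℤ)).tsum_eq]
    refine tsum_congr fun s => ?_
    show ee θ * (((w (s - 1) : ℝ) : ℂ) * ee (θ * ((s - 1 : ℤ) : ℝ))) = _
    have h2 : θ * (s : ℝ) = θ + θ * ((s - 1 : ℤ) : ℝ) := by push_cast; ring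
    rw [h2, ee_add]
    ring
  have hgs' : Summable (fun s : ℤ => ((w (s - 1) : ℝ) : ℂ) * ee (θ * (s : ℝ))) := by
    refine Summable.of_norm ?_
    have h2 : ∀ s : ℤ, ‖((w (s - 1) : ℝ) : ℂ) * ee (θ * (s : ℝ))‖ = w (s - 1) := by
      intro s
      rw [norm_mul, norm_ee, mul_one, Complex.norm_real, Real.norm_eq_abs, abs_of_nonneg (hw0 _)]
    simp only [h2]
    exact (Equiv.subRight (1 : ℤ)).summable_iff.mpr hs
  have hdiff : (1 - ee θ) * ∑' s, g s =
      ∑' s : ℤ, (((w s - w (s - 1) : ℝ)) : ℂ) * ee (θ * (s : ℝ)) := by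
    rw [sub_mul, one_mul, hshift, ← hgs.tsum_sub hgs']
    refine tsum_congr fun s => ?_
    rw [hg]
    push_cast
    ring
  obtain ⟨htv1, htv2⟩ := tv_le w ⌊-c⌋ hw0 hw1 hs (by
    intro s hsm
    apply hmono
    have h1 : (s : ℝ) ≤ -c := (Int.cast_le.2 hsm).trans (Int.floor_le _)
    push_cast
    nlinarith) (by
    intro s hsm
    apply hmono
    have h1 : ((⌊-c⌋ + 2 : ℤ) : ℝ) ≤ (s : ℝ) := Int.cast_le.2 hsm
    have h2 := Int.lt_floor_add_one (-c)
    push_cast at h1 ⊢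
    nlinarith)
  have hbound : ‖(1 - ee θ) * ∑' s, g s‖ ≤ 3 := by
    rw [hdiff]
    have hn : ∀ s : ℤ, ‖(((w s - w (s - 1) : ℝ)) : ℂ) * ee (θ * (s : ℝ))‖ = |w s - w (s - 1)| := by
      intro s
      rw [norm_mul, norm_ee, mul_one, Complex.norm_real, Real.norm_eq_abs]
    refine (norm_tsum_le_tsum_norm ?_).trans ?_
    · simp only [hn]
      exact htv1
    · simp only [hn]
      exact htv2
  rw [norm_mul] at hbound
  have h4 := norm_one_sub_ee θ
  have hS0 : 0 ≤ ‖∑' s, g s‖ := norm_nonneg _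
  have hδ : |θ - round θ| * ‖∑' s, g s‖ ≤ 1 := by
    have := mul_le_mul_of_nonneg_right h4 hS0
    nlinarith
  unfold kn
  have hmax : 0 < max (1 / (8 * (N : ℝ))) |θ - round θ| :=
    lt_of_lt_of_le (by positivity) (le_max_left _ _)
  rw [← one_div, le_div_iff₀ hmax]
  rcases le_total (1 / (8 * (N : ℝ))) |θ - round θ| with h | h
  · rw [max_eq_right h, mul_comm]
    exact hδ
  · rw [max_eq_left h]
    have h5 : ‖∑' s, g s‖ * (1 / (8 * (N : ℝ))) ≤ (8 * (N : ℝ)) * (1 / (8 * (N : ℝ))) :=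
      mul_le_mul_of_nonneg_right htriv (by positivity)
    rw [mul_one_div_cancel (by positivity)] at h5
    exact h5

end Pool.Agent.K4W.H68
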