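import Pool.Agent.K4W.StmtsV

/-! Row THS of the squad K4W: the square of the theta sum. -/

set_option autoImplicit false

namespace Pool.Agent.K4W.H68

open Pool.Agent.K4W
open Pool.Agent.Helper69_Weyl

theorem kn_nonneg (N : ℕ) (x : ℝ) (hN : 1 ≤ N) : 0 ≤ kn N x := by
  unfold kn
  have hN0 : (0 : ℝ) < N := by exact_mod_cast hN
  refine inv_nonneg.2 ((?_ : (0 : ℝ) ≤ 1 / (8 * (N : ℝ))).trans (le_max_left _ _))
  positivity

theorem kn_le (N : ℕ) (x : ℝ) (hN : 1 ≤ N) : kn N x ≤ 8 * (N : ℝ) := by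
  unfold kn
  have hN0 : (0 : ℝ) < N := by exact_mod_cast hN
  have h1 : (0 : ℝ) < 1 / (8 * (N : ℝ)) := by positivity
  refine (inv_anti₀ h1 (le_max_left _ _)).trans_eq ?_
  rw [one_div, inv_inv]

/-- the equivalence `(d, s) ↦ (s + d, s)` -/
def eqv : ℤ × ℤ ≃ ℤ × ℤ where
  toFun p := (p.2 + p.1, p.2)
  invFun p := (p.1 - p.2, p.2)
  left_inv p := by
    ext <;> simp
  right_inv p := by
    ext <;> simp

theorem eqv_summable (f : ℤ × ℤ → ℂ) (hf : Summable f) :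
    Summable fun p : ℤ × ℤ => f (p.2 + p.1, p.2) :=
  eqv.summable_iff.mpr hf

theorem eqv_tsum (f : ℤ × ℤ → ℂ) : ∑' p : ℤ × ℤ, f (p.2 + p.1, p.2) = ∑' p : ℤ × ℤ, f p :=
  eqv.tsum_eq f

theorem tsum_eqv (f : ℤ × ℤ → ℂ) (hf : Summable f) :
    ∑' p : ℤ × ℤ, f p = ∑' d : ℤ, ∑' s : ℤ, f (s + d, s) := by
  rw [← eqv_tsum]
  exact (eqv_summable f hf).tsum_prod

theorem norm_tsum_le' (G : ℤ → ℂ) (B : ℤ → ℝ) (hB : Summable B) (hin : ∀ d, ‖G d‖ ≤ B d) :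
    ‖∑' d, G d‖ ≤ ∑' d, B d := by
  have hsn : Summable fun d : ℤ => ‖G d‖ := Summable.of_nonneg_of_le (fun d => norm_nonneg _) hin hB
  exact (norm_tsum_le_tsum_norm hsn).trans (hsn.tsum_le_tsum hin hB)

theorem mul_tsum (g h : ℤ → ℂ) (hg : Summable fun s => ‖g s‖) (hh : Summable fun s => ‖h s‖) :
    Summable (fun p : ℤ × ℤ => g p.1 * h p.2) ∧
      (∑' s, g s) * (∑' s, h s) = ∑' p : ℤ × ℤ, g p.1 * h p.2 :=
  ⟨summable_mul_of_summable_norm hg hh, tsum_mul_tsum_of_summable_norm hg hh⟩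

theorem conj_norm (g : ℤ → ℂ) (hg : Summable fun s => ‖g s‖) :
    Summable fun s => ‖(starRingEnd ℂ) (g s)‖ := by
  have h : ∀ s, ‖(starRingEnd ℂ) (g s)‖ = ‖g s‖ := fun s => RCLike.norm_conj _
  simp only [h]
  exact hg

theorem mul_conj_tsum (g : ℤ → ℂ) (hg : Summable fun s => ‖g s‖) :
    Summable (fun p : ℤ × ℤ => g p.1 * (starRingEnd ℂ) (g p.2)) ∧
      (∑' s, g s) * (starRingEnd ℂ) (∑' s, g s) =
        ∑' p : ℤ × ℤ, g p.1 * (starRingEnd ℂ) (g p.2) := by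
  obtain ⟨h1, h2⟩ := mul_tsum g (fun s => (starRingEnd ℂ) (g s)) hg (conj_norm g hg)
  refine ⟨h1, ?_⟩
  rw [Complex.conj_tsum]
  exact h2

theorem sq_norm_tsum (g : ℤ → ℂ) (hg : Summable fun s => ‖g s‖) (B : ℤ → ℝ) (hB : Summable B)
    (hin : ∀ d, ‖∑' s : ℤ, g (s + d) * (starRingEnd ℂ) (g s)‖ ≤ B d) :
    ‖∑' s, g s‖ ^ 2 ≤ ∑' d, B d := by
  obtain ⟨hsp, h1⟩ := mul_conj_tsum g hg
  have h2 := tsum_eqv (fun p : ℤ × ℤ => g p.1 * (starRingEnd ℂ) (g p.2)) hsp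
  have h3 : ‖∑' s, g s‖ ^ 2 = ‖(∑' s, g s) * (starRingEnd ℂ) (∑' s, g s)‖ := by
    rw [norm_mul, RCLike.norm_conj, sq]
  rw [h3, h1, h2]
  exact norm_tsum_le' _ B hB hin

theorem ths (hgsu : GsuStmt) (hgeo : GeoStmt) : ThsStmt := by
  intro N x hN
  have hN0 : (0 : ℝ) < N := by exact_mod_cast hN
  have hpi := Real.pi_gt_three
  have hB : Summable (fun d : ℤ => Real.exp (-(2 * Real.pi * (d : ℝ) ^ 2 / (N : ℝ) ^ 2)) *
      kn N (2 * x * (d : ℝ))) := by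
    have h1 := ((hgsu N (2 * Real.pi) 0 hN (by linarith)).1).mul_right (8 * (N : ℝ))
    simp only [add_zero] at h1
    refine Summable.of_nonneg_of_le (fun d => mul_nonneg (Real.exp_pos _).le (kn_nonneg _ _ hN))
      (fun d => ?_) h1
    exact mul_le_mul_of_nonneg_left (kn_le _ _ hN) (Real.exp_pos _).le
  refine ⟨hB, ?_⟩
  have hgn : ∀ s : ℤ, ‖(ga N (2 * (s : ℝ)) : ℂ) * ee (x * (s : ℝ) ^ 2)‖ =
      Real.exp (-(4 * Real.pi * ((s : ℝ) + 0) ^ 2 / (N : ℝ) ^ 2)) := by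
    intro s
    rw [norm_mul, norm_ee, mul_one, Complex.norm_real, Real.norm_eq_abs]
    unfold ga
    rw [abs_of_pos (Real.exp_pos _)]
    congr 2
    ring
  unfold th
  refine sq_norm_tsum _ ?_ _ hB ?_
  · simp only [hgn]
    exact (hgsu N (4 * Real.pi) 0 hN (by linarith)).1
  · intro d
    have hterm : ∀ s : ℤ, (ga N (2 * ((s + d : ℤ) : ℝ)) : ℂ) * ee (x * ((s + d : ℤ) : ℝ) ^ 2) *
        (starRingEnd ℂ) ((ga N (2 * (s : ℝ)) : ℂ) * ee (x * (s : ℝ) ^ 2)) =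
        ((Real.exp (-(2 * Real.pi * (d : ℝ) ^ 2 / (N : ℝ) ^ 2)) : ℝ) : ℂ) *
          ee (x * (d : ℝ) ^ 2) *
          ((Real.exp (-(8 * Real.pi * ((s : ℝ) + (d : ℝ) / 2) ^ 2 / (N : ℝ) ^ 2)) : ℂ) *
            ee (2 * x * (d : ℝ) * (s : ℝ))) := by
      intro s
      have e1 : ga N (2 * ((s + d : ℤ) : ℝ)) * ga N (2 * (s : ℝ)) =
          Real.exp (-(2 * Real.pi * (d : ℝ) ^ 2 / (N : ℝ) ^ 2)) *
            Real.exp (-(8 * Real.pi * ((s : ℝ) + (d : ℝ) / 2) ^ 2 / (N : ℝ) ^ 2)) := by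
        unfold ga
        rw [← Real.exp_add, ← Real.exp_add]
        congr 1
        push_cast
        ring
      have e2 : ee (x * ((s + d : ℤ) : ℝ) ^ 2) * ee (-(x * (s : ℝ) ^ 2)) =
          ee (x * (d : ℝ) ^ 2) * ee (2 * x * (d : ℝ) * (s : ℝ)) := by
        rw [← ee_add, ← ee_add]
        congr 1
        push_cast
        ring
      have e1' : ((ga N (2 * ((s + d : ℤ) : ℝ)) : ℝ) : ℂ) * ((ga N (2 * (s : ℝ)) : ℝ) : ℂ) =
          ((Real.exp (-(2 * Real.pi * (d : ℝ) ^ 2 / (N : ℝ) ^ 2)) : ℝ) : ℂ) *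
            ((Real.exp (-(8 * Real.pi * ((s : ℝ) + (d : ℝ) / 2) ^ 2 / (N : ℝ) ^ 2)) : ℝ) : ℂ) := by
        rw [← Complex.ofReal_mul, e1, Complex.ofReal_mul]
      rw [map_mul, conj_ee, Complex.conj_ofReal]
      calc _ = (((ga N (2 * ((s + d : ℤ) : ℝ)) : ℝ) : ℂ) * ((ga N (2 * (s : ℝ)) : ℝ) : ℂ)) *
            (ee (x * ((s + d : ℤ) : ℝ) ^ 2) * ee (-(x * (s : ℝ) ^ 2))) := by ring
        _ = _ := by
          rw [e1', e2]
          ring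
    simp only [hterm]
    rw [tsum_mul_left, norm_mul, norm_mul, norm_ee, mul_one, Complex.norm_real, Real.norm_eq_abs,
      abs_of_pos (Real.exp_pos _)]
    refine mul_le_mul_of_nonneg_left ?_ (Real.exp_pos _).le
    exact hgeo N (8 * Real.pi) ((d : ℝ) / 2) (2 * x * (d : ℝ)) hN (by linarith)

end Pool.Agent.K4W.H68
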